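import Pool.Agent.Helper20_MWFE.HWF

/-!
# Squad MWFE, row BPX: one letter `v`, all other letters of the factor heavy (MP_23468a_al)
-/

set_option autoImplicit false

namespace Pool.Agent.MWFE.H20B

open Pool.Agent.Helper14_MV Pool.Agent.Helper2_MV Pool.Agent.MVD Pool.Agent.MWFE
open Pool.Agent.MWE (Can XX fxy dxy dx dy up cp L4 pr Xs xl isx Fs nd nr)
open Pool.Agent.MWGR (cb)

/-- the word -/
def WW (P Q : List ℕ) (v : ℕ) (Y1 Y2 : List ℕ) : List ℕ := P ++ (Y1 ++ v :: Y2) ++ Q

theorem ww_eq (P Q : List ℕ) (v : ℕ) (Y1 Y2 : List ℕ) :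
    WW P Q v Y1 Y2 = P ++ ((Y1 ++ v :: Y2) ++ Q) := by
  unfold WW
  rw [List.append_assoc]

theorem ww_count {P Q : List ℕ} {v : ℕ} {Y1 Y2 Y1' Y2' : List ℕ}
    (hp : (Y1 ++ Y2).Perm (Y1' ++ Y2')) (c : ℕ) :
    (WW P Q v Y1 Y2).count c = (WW P Q v Y1' Y2').count c := by
  have h := hp.count_eq c
  unfold WW
  simp only [List.count_append, List.count_cons] at h ⊢
  omega

theorem mid_perm {v : ℕ} {Y1 Y2 Y1' Y2' : List ℕ} (hp : (Y1 ++ Y2).Perm (Y1' ++ Y2')) :
    (Y1 ++ v :: Y2).Perm (Y1' ++ v :: Y2') :=
  List.perm_middle.trans ((hp.cons v).trans List.perm_middle.symm)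

theorem ww_hw {P Q : List ℕ} {v : ℕ} {Y1 Y2 Y1' Y2' : List ℕ}
    (hp : (Y1 ++ Y2).Perm (Y1' ++ Y2')) (hv : 2 ≤ (WW P Q v Y1 Y2).count v)
    (hh : ∀ h ∈ Y1 ++ Y2, Hw (WW P Q v Y1 Y2) h) : ∀ h ∈ Y1' ++ Y2', Hw (WW P Q v Y1' Y2') h := by
  intro h hm
  have h1 := hh h (hp.mem_iff.2 hm)
  rw [ww_eq] at h1 ⊢
  refine hw_perm (mid_perm hp) (fun c hc => ?_) h1
  rw [← ww_eq]
  rcases List.mem_append.1 hc with h2 | h2
  · exact hw_two (hh c (List.mem_append_left _ h2))
  · rcases List.mem_cons.1 h2 with h2 | h2
    · rw [h2]; exact hv
    · exact hw_two (hh c (List.mem_append_right _ h2))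

/-- rearrangement on both sides of `v` -/
theorem ph2 (hphx : PhxStmt) {n : ℕ} {β : FIC} (hz : Hz n β) (P Q : List ℕ) (v : ℕ)
    (Y1 Y2 Y1' Y2' : List ℕ) (h1 : Y1.Perm Y1') (h2 : Y2.Perm Y2')
    (hv : 2 ≤ (WW P Q v Y1 Y2).count v) (hh : ∀ h ∈ Y1 ++ Y2, Hw (WW P Q v Y1 Y2) h) :
    RR β (WW P Q v Y1 Y2) (WW P Q v Y1' Y2') := by
  have a1 := hphx n β hz P (v :: (Y2 ++ Q)) Y1 Y1' h1 (fun h hm => by
    have h3 := hh h (List.mem_append_left _ hm)
    unfold WW at h3
    simp only [List.append_assoc, List.cons_append] at h3
    exact h3)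
  have hh2 := ww_hw (P := P) (Q := Q) (h1.append_right Y2) hv hh
  have a2 := hphx n β hz (P ++ (Y1' ++ [v])) Q Y2 Y2' h2 (fun h hm => by
    have h3 := hh2 h (List.mem_append_right _ hm)
    unfold WW at h3
    simp only [List.append_assoc, List.cons_append, List.nil_append] at h3 ⊢
    exact h3)
  unfold WW
  simp only [List.append_assoc, List.cons_append, List.nil_append] at a1 a2 ⊢
  exact β.trans a1 a2

/-- case (a): letters `h` cross `v` -/
theorem mv (hlcf : LcfStmt) {n : ℕ} {β : FIC} (hz : Hz n β) (P Q : List ℕ) (v h : ℕ)
    (G a b : List ℕ) (hG : P = a ++ (G ++ b) ∨ Q = a ++ (G ++ b)) (hvG : v ∈ G) (hhG : h ∈ G)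
    (k : ℕ) : ∀ (Z1 Z2 : List ℕ), (∀ d ∈ G, 2 ≤ (WW P Q v (Z1 ++ List.replicate k h) Z2).count d) →
      RR β (WW P Q v (Z1 ++ List.replicate k h) Z2) (WW P Q v Z1 (List.replicate k h ++ Z2)) := by
  induction k with
  | zero =>
    intro Z1 Z2 _
    rw [List.replicate_zero, List.append_nil, List.nil_append]
    exact RR.refl _
  | succ k ih =>
    intro Z1 Z2 hm
    have e0 : List.replicate (k + 1) h = List.replicate k h ++ [h] := List.replicate_succ'
    have e1 : RR β (WW P Q v (Z1 ++ List.replicate (k + 1) h) Z2)
        (WW P Q v (Z1 ++ List.replicate k h) (h :: Z2)) := by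
      rcases hG with hG | hG
      · have h1 := (hlcf β hz.ff hz.zz a (b ++ (Z1 ++ List.replicate k h)) G (Z2 ++ Q) h v hhG
          hvG).2 (fun d hd => by
            have h2 := hm d hd
            unfold WW at h2
            rw [e0, hG] at h2
            simp only [List.append_assoc, List.cons_append, List.nil_append] at h2 ⊢
            exact h2)
        unfold WW
        rw [e0, hG]
        simp only [List.append_assoc, List.cons_append, List.nil_append] at h1 ⊢
        exact h1
      · have h1 := (hlcf β hz.ff hz.zz (P ++ (Z1 ++ List.replicate k h)) (Z2 ++ a) G b h v hhG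
          hvG).1 (fun d hd => by
            have h2 := hm d hd
            unfold WW at h2
            rw [e0, hG] at h2
            simp only [List.append_assoc, List.cons_append, List.nil_append] at h2 ⊢
            exact h2)
        unfold WW
        rw [e0, hG]
        simp only [List.append_assoc, List.cons_append, List.nil_append] at h1 ⊢
        exact h1
    refine β.trans e1 ?_
    have e2 := ih Z1 (h :: Z2) (fun d hd => by
      have h2 := hm d hd
      rw [ww_count (Y1' := Z1 ++ List.replicate k h) (Y2' := h :: Z2)] at h2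
      · exact h2
      · rw [e0]
        simp only [List.append_assoc, List.cons_append, List.nil_append]
        exact List.Perm.refl _)
    rw [e0]
    simp only [List.append_assoc, List.cons_append, List.nil_append] at e2 ⊢
    exact e2

theorem perm_filter (l : List ℕ) (h : ℕ) :
    l.Perm (l.filter (fun c => decide (c ≠ h)) ++ List.replicate (l.count h) h) := by
  rw [List.perm_iff_count]
  intro c
  rw [List.count_append]
  by_cases hc : c = h
  · subst hc
    have h0 : (l.filter (fun d => decide (d ≠ c))).count c = 0 := by
      rw [List.count_eq_zero]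
      intro h1
      have := (List.mem_filter.1 h1).2
      simp at this
    rw [List.count_replicate_self, h0, Nat.zero_add]
  · rw [List.count_filter (by simpa using hc), List.count_eq_zero.2 (fun h1 =>
      hc (List.mem_replicate.1 h1).2), Nat.add_zero]

theorem filter_count {l : List ℕ} {h c : ℕ} :
    (l.filter (fun c => decide (c ≠ h))).count c = if c = h then 0 else l.count c := by
  by_cases hc : c = h
  · rw [if_pos hc, List.count_eq_zero]
    intro h1
    have := (List.mem_filter.1 h1).2
    simp [hc] at this
  · rw [if_neg hc, List.count_filter (by simpa using hc)]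

theorem bpx (hlcf : LcfStmt) (hfil : FilStmt) (_hhhx : HhxStmt) (hphx : PhxStmt) : BpxStmt := by
  intro n β hz P Q Y1 Y2 Y1' Y2' v hv1 hv2 hvc hperm hhw hcond
  have key : ∀ (S Y1 Y2 : List ℕ), v ∉ Y1 → v ∉ Y2 → 2 ≤ (WW P Q v Y1 Y2).count v →
      (Y1 ++ Y2).Perm (Y1' ++ Y2') → (∀ h ∈ Y1 ++ Y2, Hw (WW P Q v Y1 Y2) h) →
      (∀ h ∈ Y1 ++ Y2,
        (∃ G a b : List ℕ, (P = a ++ (G ++ b) ∨ Q = a ++ (G ++ b)) ∧
          Mult G (WW P Q v Y1 Y2) ∧ v ∈ G ∧ h ∈ G) ∨
        (Y1.count h ≡ Y1'.count h [MOD n] ∧ (Y1.count h = Y1'.count h ∨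
          (1 ≤ Y1.count h ∧ 1 ≤ Y2.count h ∧ 1 ≤ Y1'.count h ∧ 1 ≤ Y2'.count h)))) →
      (∀ c, c ∉ S → Y1.count c = Y1'.count c) →
        RR β (WW P Q v Y1 Y2) (WW P Q v Y1' Y2') := by
    intro S
    induction S with
    | nil =>
      intro Y1 Y2 hv1 hv2 hvc hperm hhw _ hc
      have p1 : Y1.Perm Y1' := List.perm_iff_count.2 (fun c => hc c List.not_mem_nil)
      have p2 : Y2.Perm Y2' := List.perm_iff_count.2 (fun c => by
        have h1 := hperm.count_eq c
        have h2 := hc c List.not_mem_nil
        rw [List.count_append, List.count_append] at h1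
        omega)
      exact ph2 hphx hz P Q v Y1 Y2 Y1' Y2' p1 p2 hvc hhw
    | cons h S ih =>
      intro Y1 Y2 hv1 hv2 hvc hperm hhw hcond hc
      by_cases hin : h ∈ Y1 ++ Y2
      swap
      · refine ih Y1 Y2 hv1 hv2 hvc hperm hhw hcond (fun c hcS => ?_)
        by_cases hch : c = h
        · subst hch
          have h1 : c ∉ Y1' ++ Y2' := fun h2 => hin (hperm.mem_iff.2 h2)
          rw [List.count_eq_zero.2 (fun h2 => hin (List.mem_append_left _ h2)),
            List.count_eq_zero.2 (fun h2 => h1 (List.mem_append_left _ h2))]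
        · exact hc c (fun h2 => (List.mem_cons.1 h2).elim hch hcS)
      · have hvh : v ≠ h := by
          rintro rfl
          rcases List.mem_append.1 hin with h1 | h1
          · exact hv1 h1
          · exact hv2 h1
        set Z1 := Y1.filter (fun c => decide (c ≠ h)) with hZ1
        set Z2 := Y2.filter (fun c => decide (c ≠ h)) with hZ2
        have p1 : Y1.Perm (Z1 ++ List.replicate (Y1.count h) h) := perm_filter Y1 h
        have p2 : Y2.Perm (List.replicate (Y2.count h) h ++ Z2) :=
          (perm_filter Y2 h).trans List.perm_append_comm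
        have hsum : Y1.count h + Y2.count h = Y1'.count h + Y2'.count h := by
          have h1 := hperm.count_eq h
          rw [List.count_append, List.count_append] at h1
          exact h1
        have a1 : RR β (WW P Q v Y1 Y2)
            (WW P Q v (Z1 ++ List.replicate (Y1.count h) h) (List.replicate (Y2.count h) h ++ Z2)) :=
          ph2 hphx hz P Q v Y1 Y2 _ _ p1 p2 hvc hhw
        have pm : (Y1 ++ Y2).Perm ((Z1 ++ List.replicate (Y1'.count h) h) ++
            (List.replicate (Y2'.count h) h ++ Z2)) := by
          rw [List.perm_iff_count]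
          intro c
          have h1 := (p1.append p2).count_eq c
          simp only [List.count_append, List.count_replicate] at h1 ⊢
          by_cases hch : h = c
          · subst hch
            simp only [beq_self_eq_true, if_true] at h1 ⊢
            omega
          · have hch' : (h == c) = false := beq_eq_false_iff_ne.2 hch
            simp only [hch', Bool.false_eq_true, if_false] at h1 ⊢
            exact h1
        have pm0 : (Y1 ++ Y2).Perm ((Z1 ++ List.replicate (Y1.count h) h) ++
            (List.replicate (Y2.count h) h ++ Z2)) := p1.append p2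
        -- the step
        have a2 : RR β
            (WW P Q v (Z1 ++ List.replicate (Y1.count h) h) (List.replicate (Y2.count h) h ++ Z2))
            (WW P Q v (Z1 ++ List.replicate (Y1'.count h) h)
              (List.replicate (Y2'.count h) h ++ Z2)) := by
          rcases hcond h hin with ⟨G, a, b, g1, g2, g3, g4⟩ | ⟨g1, g2⟩
          · have m1 := mv hlcf hz P Q v h G a b g1 g3 g4 (Y1.count h) Z1
              (List.replicate (Y2.count h) h ++ Z2) (fun d hd => by
                rw [← ww_count pm0]; exact g2 d hd)
            have m2 := mv hlcf hz P Q v h G a b g1 g3 g4 (Y1'.count h) Z1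
              (List.replicate (Y2'.count h) h ++ Z2) (fun d hd => by
                rw [← ww_count pm]; exact g2 d hd)
            have e1 : List.replicate (Y1.count h) h ++ (List.replicate (Y2.count h) h ++ Z2) =
                List.replicate (Y1'.count h) h ++ (List.replicate (Y2'.count h) h ++ Z2) := by
              rw [← List.append_assoc, ← List.append_assoc, List.replicate_append_replicate,
                List.replicate_append_replicate, hsum]
            rw [e1] at m1
            exact β.trans m1 (RR.symm m2)
          · rcases g2 with g2 | ⟨k1, k2, k3, k4⟩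
            · have h2 : Y2.count h = Y2'.count h := by omega
              rw [← g2, ← h2]
              exact RR.refl _
            · have hj : Y2.count h ≡ Y2'.count h [MOD n] := by
                have h3 : Y1.count h + Y2.count h ≡ Y1'.count h + Y2'.count h [MOD n] := by
                  rw [hsum]
                exact Nat.ModEq.add_left_cancel g1 h3
              have hcv : 2 ≤ ((P ++ Z1) ++ v :: (Z2 ++ Q)).count v := by
                have h3 := hvc
                rw [ww_count pm0] at h3
                unfold WW at h3
                simp only [List.count_append, List.count_cons_self, List.count_replicate,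
                  beq_eq_false_iff_ne.2 hvh.symm, Bool.false_eq_true, if_false] at h3 ⊢
                omega
              have h4 := hfil n β hz (P ++ Z1) (Z2 ++ Q) h v (Y1.count h) (Y2.count h)
                (Y1'.count h) (Y2'.count h) hvh g1 hj k1 k2 k3 k4 hcv
              unfold WW
              simp only [List.append_assoc, List.cons_append] at h4 ⊢
              exact h4
        refine β.trans a1 (β.trans a2 ?_)
        have nv1 : v ∉ Z1 ++ List.replicate (Y1'.count h) h := by
          intro h1
          rcases List.mem_append.1 h1 with h1 | h1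
          · exact hv1 (List.mem_filter.1 h1).1
          · exact hvh (List.mem_replicate.1 h1).2
        have nv2 : v ∉ List.replicate (Y2'.count h) h ++ Z2 := by
          intro h1
          rcases List.mem_append.1 h1 with h1 | h1
          · exact hvh (List.mem_replicate.1 h1).2
          · exact hv2 (List.mem_filter.1 h1).1
        have c1 : ∀ c, c ≠ h → (Z1 ++ List.replicate (Y1'.count h) h).count c = Y1.count c := by
          intro c hch
          rw [List.count_append, hZ1, filter_count, if_neg hch, List.count_eq_zero.2 (fun h1 =>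
            hch (List.mem_replicate.1 h1).2), Nat.add_zero]
        have c2 : ∀ c, c ≠ h → (List.replicate (Y2'.count h) h ++ Z2).count c = Y2.count c := by
          intro c hch
          rw [List.count_append, hZ2, filter_count, if_neg hch, List.count_eq_zero.2 (fun h1 =>
            hch (List.mem_replicate.1 h1).2), Nat.zero_add]
        have c3 : (Z1 ++ List.replicate (Y1'.count h) h).count h = Y1'.count h := by
          rw [List.count_append, hZ1, filter_count, if_pos rfl, List.count_replicate_self,
            Nat.zero_add]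
        refine ih _ _ nv1 nv2 ?_ (pm.symm.trans hperm) (ww_hw pm hvc hhw) ?_ ?_
        · rw [← ww_count pm]; exact hvc
        · intro g hg
          have hg' : g ∈ Y1 ++ Y2 := pm.mem_iff.2 hg
          rcases hcond g hg' with ⟨G, a, b, g1, g2, g3, g4⟩ | ⟨g1, g2⟩
          · exact Or.inl ⟨G, a, b, g1, fun d hd => by rw [← ww_count pm]; exact g2 d hd, g3, g4⟩
          · refine Or.inr ?_
            by_cases hgh : g = h
            · subst hgh
              rw [c3]
              exact ⟨Nat.ModEq.refl _, Or.inl rfl⟩
            · rw [c1 g hgh, c2 g hgh]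
              exact ⟨g1, g2⟩
        · intro c hcS
          by_cases hch : c = h
          · rw [hch, c3]
          · rw [c1 c hch]
            exact hc c (fun h2 => (List.mem_cons.1 h2).elim hch hcS)
  refine key (Y1 ++ Y2 ++ (Y1' ++ Y2')) Y1 Y2 hv1 hv2 hvc hperm hhw hcond (fun c hc => ?_)
  rw [List.count_eq_zero.2 (fun h => hc (List.mem_append_left _ (List.mem_append_left _ h))),
    List.count_eq_zero.2 (fun h => hc (List.mem_append_right _ (List.mem_append_left _ h)))]

end Pool.Agent.MWFE.H20B
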