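import Pool.Agent.MWFE.StmtsA
import Pool.Agent.Helper77_MWE.LOC

/-!
# Squad MWFE, rows LCF, PWL, CRO, FIL (MP_23468a_al)
-/

set_option autoImplicit false

namespace Pool.Agent.MWFE.H20E

open Pool.Agent.Helper14_MV Pool.Agent.Helper2_MV Pool.Agent.MVD Pool.Agent.MWFE
open Pool.Agent.MWE (Can XX fxy dxy dx dy up cp L4 pr Xs xl isx Fs nd nr)
open Pool.Agent.MWGR (cb)

theorem lcf : LcfStmt := by
  intro β hF hZ p q g r a b ha hb
  by_cases hab : a = b
  · subst hab
    exact ⟨fun _ => RR.refl _, fun _ => RR.refl _⟩
  · obtain ⟨h1, h2⟩ := Pool.Agent.MWE.H77.loc β p q g r a b hab ha hb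
    exact ⟨fun h => h1 h (fun c' _ _ _ p q r x y hm => hF p q c' r x y hm),
      fun h => h2 h (fun c' _ _ _ p q r x y hm => hZ p q c' r x y hm)⟩

theorem fm_rep (g : ℕ → List ℕ) (a b k : ℕ) (h : g a = [b]) :
    (List.replicate k a).flatMap g = List.replicate k b := by
  induction k with
  | zero => rfl
  | succ k ih =>
    rw [List.replicate_succ, List.flatMap_cons, ih, h, List.replicate_succ]
    rfl

theorem pwl1 {n : ℕ} {β : FIC} (hz : Hz n β) (p q : List ℕ) (v a : ℕ) (ha : 2 ≤ a) (k : ℕ) :
    RR β (p ++ (List.replicate a v ++ q)) (p ++ (List.replicate (a + n * k) v ++ q)) := by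
  induction k with
  | zero => exact RR.refl _
  | succ k ih =>
    refine β.trans ih ?_
    have h1 := hz.per.sub (fun _ => [v])
    have e1 : ([0, 0] : List ℕ).flatMap (fun _ => [v]) = List.replicate 2 v := rfl
    rw [e1, fm_rep (fun _ => [v]) 0 v (n + 2) rfl] at h1
    obtain ⟨j, hj⟩ : ∃ j, a = j + 2 := ⟨a - 2, by omega⟩
    have h2 := (RR.refl (β := β) (p ++ List.replicate (j + n * k) v)).append
      (h1.append (RR.refl q))
    have e2 : (p ++ List.replicate (j + n * k) v) ++ (List.replicate 2 v ++ q) =
        p ++ (List.replicate (a + n * k) v ++ q) := by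
      have e3 : a + n * k = (j + n * k) + 2 := by omega
      rw [e3, List.replicate_add (j + n * k) 2 v]
      simp only [List.append_assoc]
    have e4 : (p ++ List.replicate (j + n * k) v) ++ (List.replicate (n + 2) v ++ q) =
        p ++ (List.replicate (a + n * (k + 1)) v ++ q) := by
      have e3 : a + n * (k + 1) = (j + n * k) + (n + 2) := by rw [hj, Nat.mul_succ]; omega
      rw [e3, List.replicate_add (j + n * k) (n + 2) v]
      simp only [List.append_assoc]
    rw [e2, e4] at h2
    exact h2

theorem pwl : PwlStmt := by
  intro n β hz p q v a b hab ha hb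
  rcases Nat.le_total a b with h | h
  · obtain ⟨k, hk⟩ := (Nat.modEq_iff_dvd' h).1 hab
    have e : b = a + n * k := by omega
    rw [e]
    exact pwl1 hz p q v a ha k
  · obtain ⟨k, hk⟩ := (Nat.modEq_iff_dvd' h).1 hab.symm
    have e : a = b + n * k := by omega
    rw [e]
    exact RR.symm (pwl1 hz p q v b hb k)

theorem cro : CroStmt := by
  intro n β i j hq p T q z v i' j' k l h1 h2 h3 h4 h5 h6 h7
  have h := hq i' j' k l h1 h2 h3 h4 h5 h6 h7
  have h8 := h.sub (fun a => if a = 0 then [z] else if a = 3 then [v] else if a = 2 then T else [])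
  have e : ∀ a b : ℕ, (cw a b).flatMap
      (fun a => if a = 0 then [z] else if a = 3 then [v] else if a = 2 then T else []) =
        List.replicate a z ++ v :: (List.replicate b z ++ (T ++ [v])) := by
    intro a b
    unfold cw
    simp only [List.flatMap_append, List.flatMap_cons, List.flatMap_nil]
    rw [fm_rep _ 0 z a (if_pos rfl), fm_rep _ 0 z b (if_pos rfl)]
    simp
  rw [e, e] at h8
  have h9 := (RR.refl (β := β) p).append (h8.append (RR.refl q))
  simp only [List.append_assoc, List.cons_append, List.nil_append] at h9
  exact h9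

theorem it1 {n : ℕ} {β : FIC} (hz : Hz n β) (p q w w' : List ℕ) (x : ℕ)
    (hm : ∀ c ∈ w ++ w', 2 ≤ (p ++ x :: (w ++ (w' ++ x :: q))).count c) :
    RR β (p ++ x :: (w ++ (w' ++ x :: q)))
      (p ++ x :: (w ++ (List.replicate n x ++ (w' ++ x :: q)))) := hz.it p w w' q x hm

theorem fil (hpwl : PwlStmt) : FilStmt := by
  intro n β hz p q z v i j i' j' hvz hi hj h1 h2 h3 h4 hc
  have hn := hz.n2
  -- from small to large exponents
  have key : ∀ a b : ℕ, 1 ≤ a → 1 ≤ b →
      RR β (p ++ (List.replicate a z ++ v :: (List.replicate b z ++ q)))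
        (p ++ (List.replicate (a + n) z ++ v :: (List.replicate (b + n) z ++ q))) := by
    intro a b ha hb
    obtain ⟨a', rfl⟩ : ∃ a', a = a' + 1 := ⟨a - 1, by omega⟩
    obtain ⟨b', rfl⟩ : ∃ b', b = b' + 1 := ⟨b - 1, by omega⟩
    have hvr : ∀ m : ℕ, (List.replicate m z).count v = 0 := fun m => by
      rw [List.count_eq_zero, List.mem_replicate]
      exact fun h => hvz h.2
    have hcc : ∀ (A D : List ℕ), 2 ≤ ((p ++ A) ++ (v :: D ++ q)).count v := by
      intro A D
      simp only [List.count_append, List.count_cons_self] at hc ⊢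
      omega
    have s1 := it1 hz (p ++ List.replicate a' z) (List.replicate b' z ++ q) [] [v] z (by
      intro c hcm
      rw [List.nil_append, List.mem_singleton] at hcm
      subst hcm
      simp only [List.count_append, List.count_cons_self, List.count_cons] at hc ⊢
      omega)
    have s2 := it1 hz (p ++ List.replicate (a' + n) z) (List.replicate b' z ++ q) [v] [] z (by
      intro c hcm
      rw [List.append_nil, List.mem_singleton] at hcm
      subst hcm
      simp only [List.count_append, List.count_cons_self, List.count_cons] at hc ⊢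
      omega)
    have e1 : (p ++ List.replicate a' z) ++ z :: ([] ++ ([v] ++ z :: (List.replicate b' z ++ q))) =
        p ++ (List.replicate (a' + 1) z ++ v :: (List.replicate (b' + 1) z ++ q)) := by
      rw [List.replicate_succ' (n := a'), List.replicate_succ (n := b')]
      simp only [List.append_assoc, List.cons_append, List.nil_append]
    have e2 : (p ++ List.replicate a' z) ++ z :: ([] ++ (List.replicate n z ++
        ([v] ++ z :: (List.replicate b' z ++ q)))) =
        (p ++ List.replicate (a' + n) z) ++ z :: ([v] ++ ([] ++ z :: (List.replicate b' z ++ q)))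
        := by
      have e3 : List.replicate a' z ++ z :: List.replicate n z =
          List.replicate (a' + n) z ++ [z] := by
        rw [← List.replicate_succ, List.replicate_append_replicate, ← List.replicate_succ']
        congr 1
      have e4 := congrArg (fun l => p ++ (l ++ v :: z :: (List.replicate b' z ++ q))) e3
      simp only [List.append_assoc, List.cons_append, List.nil_append] at e4 ⊢
      exact e4
    have e5 : (p ++ List.replicate (a' + n) z) ++ z :: ([v] ++ (List.replicate n z ++
        ([] ++ z :: (List.replicate b' z ++ q)))) =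
        p ++ (List.replicate (a' + 1 + n) z ++ v :: (List.replicate (b' + 1 + n) z ++ q)) := by
      have e6 : List.replicate (a' + 1 + n) z = List.replicate (a' + n) z ++ [z] := by
        rw [← List.replicate_succ']
        congr 1
        omega
      have e7 : List.replicate (b' + 1 + n) z = List.replicate n z ++ z :: List.replicate b' z := by
        rw [← List.replicate_succ, List.replicate_append_replicate]
        congr 1
        omega
      rw [e6, e7]
      simp only [List.append_assoc, List.cons_append, List.nil_append]
    rw [e1, e2] at s1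
    rw [e5] at s2
    exact β.trans s1 s2
  refine β.trans (key i j h1 h2) (β.trans ?_ (RR.symm (key i' j' h3 h4)))
  have a1 := hpwl n β hz p (v :: (List.replicate (j + n) z ++ q)) z (i + n) (i' + n)
    (Nat.ModEq.add_right n hi) (by omega) (by omega)
  have a2 := hpwl n β hz (p ++ (List.replicate (i' + n) z ++ [v])) q z (j + n) (j' + n)
    (Nat.ModEq.add_right n hj) (by omega) (by omega)
  simp only [List.append_assoc, List.cons_append, List.nil_append] at a2
  exact β.trans a1 a2

end Pool.Agent.MWFE.H20E
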