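import Pool.Agent.MWFE.StmtsA

/-!
# Squad MWFE: heavy letters and rearrangements of factors of multiple letters (MP_23468a_al)
-/

set_option autoImplicit false

namespace Pool.Agent.MWFE.H20B

open Pool.Agent.Helper14_MV Pool.Agent.Helper2_MV Pool.Agent.MVD Pool.Agent.MWFE
open Pool.Agent.MWE (Can XX fxy dxy dx dy up cp L4 pr Xs xl isx Fs nd nr)
open Pool.Agent.MWGR (cb)

/-- the letter `v` and the linear letters -/
def fl (w : List ℕ) (v : ℕ) (l : List ℕ) : List ℕ :=
  l.filter (fun c => decide (c = v ∨ w.count c = 1))

theorem fl_append (w : List ℕ) (v : ℕ) (l l' : List ℕ) : fl w v (l ++ l') = fl w v l ++ fl w v l' :=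
  List.filter_append ..

theorem fl_mult {w : List ℕ} (v : ℕ) {l : List ℕ} (h : ∀ c ∈ l, 2 ≤ w.count c) :
    fl w v l = List.replicate (l.count v) v := by
  unfold fl
  have h1 : l.filter (fun c => decide (c = v ∨ w.count c = 1)) = l.filter (fun c => c == v) := by
    refine List.filter_congr (fun c hc => ?_)
    have h2 := h c hc
    by_cases h3 : c = v
    · simp [h3]
    · have h4 : ¬ w.count c = 1 := by omega
      simp [h3, h4]
  rw [h1, List.filter_beq]

theorem hwf (w : List ℕ) (v : ℕ) : Hw w v ↔ (3 ≤ w.count v ∨
    ∃ a b : List ℕ, fl w v w = a ++ v :: v :: b) := by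
  constructor
  · rintro (h | ⟨a, G, b, h1, h2, h3⟩)
    · exact Or.inl h
    · refine Or.inr ?_
      have e : fl w v w = fl w v a ++ (List.replicate (G.count v) v ++ fl w v b) :=
        (congrArg (fl w v) h1).trans (by rw [fl_append, fl_append, fl_mult v h2])
      obtain ⟨j, hj⟩ : ∃ j, G.count v = j + 2 := ⟨G.count v - 2, by omega⟩
      rw [hj, List.replicate_succ, List.replicate_succ] at e
      exact ⟨_, _, e⟩
  · rintro (h | ⟨a, b, h⟩)
    · exact Or.inl h
    · refine Or.inr ?_
      unfold fl at h
      rw [List.filter_eq_append_iff] at h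
      obtain ⟨l1, l2, h1, h2, h3⟩ := h
      rw [List.filter_eq_cons_iff] at h3
      obtain ⟨l3, l4, h4, h5, h6, h7⟩ := h3
      rw [List.filter_eq_cons_iff] at h7
      obtain ⟨l5, l6, h8, h9, h10, h11⟩ := h7
      have hw : w = (l1 ++ l3) ++ ((v :: (l5 ++ [v])) ++ l6) := by
        rw [h1, h4, h8]
        simp only [List.append_assoc, List.cons_append, List.nil_append]
      have hv : 2 ≤ w.count v := by
        rw [hw]
        simp only [List.count_append, List.count_cons_self, List.count_nil]
        omega
      refine ⟨l1 ++ l3, v :: (l5 ++ [v]), l6, hw, ?_, ?_⟩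
      · intro c hc
        rcases List.mem_cons.1 hc with h | h
        · rw [h]; exact hv
        · rcases List.mem_append.1 h with h | h
          · have h12 := h9 c h
            rw [decide_eq_true_eq] at h12
            have h13 : 0 < w.count c := List.count_pos_iff.2 (by
              rw [hw]
              exact List.mem_append_right _ (List.mem_append_left _ (List.mem_cons_of_mem _
                (List.mem_append_left _ h))))
            have h14 : w.count c ≠ 1 := fun h15 => h12 (Or.inr h15)
            omega
          · rw [List.mem_singleton.1 h]; exact hv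
      · simp only [List.count_append, List.count_cons_self, List.count_nil]
        omega

/-- `Hw` does not change if a factor of multiple letters is rearranged -/
theorem hw_perm {P M M' Q : List ℕ} (hp : M.Perm M') (hm : ∀ c ∈ M, 2 ≤ (P ++ (M ++ Q)).count c)
    {v : ℕ} (h : Hw (P ++ (M ++ Q)) v) : Hw (P ++ (M' ++ Q)) v := by
  have hc : ∀ c, (P ++ (M' ++ Q)).count c = (P ++ (M ++ Q)).count c := by
    intro c
    simp only [List.count_append, hp.count_eq c]
  have hf : ∀ l, fl (P ++ (M' ++ Q)) v l = fl (P ++ (M ++ Q)) v l := by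
    intro l
    unfold fl
    simp only [hc]
  rw [hwf] at h ⊢
  rw [hc, hf]
  rw [fl_append, fl_append, fl_mult v (fun c hcM => hm c (hp.mem_iff.2 hcM)), ← hp.count_eq v,
    ← fl_mult v hm, ← fl_append, ← fl_append]
  exact h

theorem hw_two {w : List ℕ} {v : ℕ} (h : Hw w v) : 2 ≤ w.count v := by
  rcases h with h | ⟨a, G, b, h1, _, h3⟩
  · omega
  · rw [h1, List.count_append, List.count_append]
    omega

end Pool.Agent.MWFE.H20B
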