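import Pool.Agent.MWFE.StmtsB

/-!
# Squad MWFE, row LBZ: the labels of `x`, `y` in block `0` (MP_23468a_al)
-/

set_option autoImplicit false

namespace Pool.Agent.MWFE.H20

open Pool.Agent.Helper14_MV Pool.Agent.Helper2_MV Pool.Agent.MVD Pool.Agent.MWFE
open Pool.Agent.MWE (Can XX fxy dxy dx dy up cp L4 pr Xs xl isx Fs nd nr)
open Pool.Agent.MWGR (cb)

theorem bw_append (R1 R2 : List ℕ) (B : ℕ → List ℕ) : Bw (R1 ++ R2) B = Bw R1 B ++ Bw R2 B := by
  unfold Bw
  exact List.flatMap_append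

theorem bw_cons (r : ℕ) (R : List ℕ) (B : ℕ → List ℕ) :
    Bw (r :: R) B = B r ++ (3 * r + 2) :: Bw R B := by
  unfold Bw
  rw [List.flatMap_cons, List.append_assoc]
  rfl

theorem mem_bw {R : List ℕ} {B : ℕ → List ℕ} {a : ℕ} :
    a ∈ Bw R B ↔ ∃ r ∈ R, a ∈ B r ∨ a = 3 * r + 2 := by
  unfold Bw
  rw [List.mem_flatMap]
  constructor
  · rintro ⟨r, hr, h⟩
    refine ⟨r, hr, ?_⟩
    rw [List.mem_append, List.mem_singleton] at h
    exact h
  · rintro ⟨r, hr, h⟩
    refine ⟨r, hr, ?_⟩
    rw [List.mem_append, List.mem_singleton]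
    exact h

/-- if only the letter `a` survives -/
theorem fm_one (g : ℕ → List ℕ) (a b : ℕ) (ha : g a = [b]) (l : List ℕ)
    (h : ∀ c ∈ l, c ≠ a → g c = []) : l.flatMap g = List.replicate (l.count a) b := by
  induction l with
  | nil => rfl
  | cons c l ih =>
    rw [List.flatMap_cons, ih (fun d hd => h d (List.mem_cons_of_mem _ hd))]
    by_cases hc : c = a
    · subst hc
      rw [ha, List.count_cons_self, List.replicate_succ]
      rfl
    · rw [h c List.mem_cons_self hc, List.count_cons_of_ne hc]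
      rfl

/-- nothing survives -/
theorem fm_nil (g : ℕ → List ℕ) (l : List ℕ) (h : ∀ c ∈ l, g c = []) : l.flatMap g = [] := by
  rw [List.flatMap_eq_nil_iff]
  exact h

theorem cb_split (P Q : List ℕ) (x v : ℕ) (h : v ∉ P) : cb (P ++ v :: Q) x v = P.count x := by
  unfold MWGR.cb
  rw [List.takeWhile_append_of_pos]
  · rw [List.takeWhile_cons_of_neg (by simp), List.append_nil]
  · intro a ha
    simp only [ne_eq, decide_not, Bool.not_eq_eq_eq_not, Bool.not_true, decide_eq_false_iff_not]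
    intro h1
    exact h (h1 ▸ ha)

/-- the projection to `v`, `z` and the separator of block `0` -/
def sg (z v : ℕ) : ℕ → List ℕ := fun a => if a = v then [3] else if a = z then [0] else
  if a = 2 then [2] else []

/-- projected words -/
theorem prj (R1 R2 : List ℕ) (B : ℕ → List ℕ) (e P Q : List ℕ) (z v : ℕ) (hz : z % 3 ≠ 2)
    (hv : v % 3 ≠ 2) (hzv : z ≠ v) (hb : ∀ r, SFr (B r)) (h1 : ∀ r ∈ R1, v ∉ B r ∧ r ≠ 0)
    (h0 : B 0 = P ++ v :: Q) (hP : v ∉ P) (hQ : v ∉ Q) (h2 : ∀ r ∈ R2, z ∉ B r ∧ r ≠ 0)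
    (hc : (Bw R2 B).count v = 1) (he : z ∉ e) (hve : v ∉ e) (hse : SFr e) :
    (Bw (R1 ++ 0 :: R2) B ++ e).flatMap (sg z v) =
      cw ((Bw R1 B).count z + P.count z) (Q.count z) := by
  have gv : sg z v v = [3] := by unfold sg; rw [if_pos rfl]
  have gz : sg z v z = [0] := by unfold sg; rw [if_neg hzv, if_pos rfl]
  have g2 : sg z v 2 = [2] := by
    unfold sg
    rw [if_neg (by rintro rfl; exact hv rfl), if_neg (by rintro rfl; exact hz rfl), if_pos rfl]
  have go : ∀ a, a ≠ v → a ≠ z → a ≠ 2 → sg z v a = [] := by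
    intro a h1 h2 h3
    unfold sg
    rw [if_neg h1, if_neg h2, if_neg h3]
  have e1 : (Bw R1 B).flatMap (sg z v) = List.replicate ((Bw R1 B).count z) 0 := by
    refine fm_one _ _ _ gz _ (fun c hc hcz => ?_)
    obtain ⟨r, hr, h⟩ := mem_bw.1 hc
    rcases h with h | h
    · have h3 := hb r c h
      exact go c (fun hcv => (h1 r hr).1 (hcv ▸ h)) hcz (by rintro rfl; exact h3 rfl)
    · have h3 := (h1 r hr).2
      exact go c (by omega) hcz (by omega)
  have e2 : P.flatMap (sg z v) = List.replicate (P.count z) 0 := by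
    refine fm_one _ _ _ gz _ (fun c hc hcz => ?_)
    have h3 := hb 0 c (by rw [h0]; exact List.mem_append_left _ hc)
    exact go c (fun hcv => hP (hcv ▸ hc)) hcz (by rintro rfl; exact h3 rfl)
  have e3 : Q.flatMap (sg z v) = List.replicate (Q.count z) 0 := by
    refine fm_one _ _ _ gz _ (fun c hc hcz => ?_)
    have h3 := hb 0 c (by rw [h0]; exact List.mem_append_right _ (List.mem_cons_of_mem _ hc))
    exact go c (fun hcv => hQ (hcv ▸ hc)) hcz (by rintro rfl; exact h3 rfl)
  have e4 : (Bw R2 B).flatMap (sg z v) = [3] := by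
    rw [fm_one _ v 3 gv _ (fun c hc hcv => ?_), hc]
    · rfl
    · obtain ⟨r, hr, h⟩ := mem_bw.1 hc
      rcases h with h | h
      · have h3 := hb r c h
        exact go c hcv (fun hcz => (h2 r hr).1 (hcz ▸ h)) (by rintro rfl; exact h3 rfl)
      · have h3 := (h2 r hr).2
        exact go c hcv (by omega) (by omega)
  have e5 : e.flatMap (sg z v) = [] := by
    refine fm_nil _ _ (fun c hc => ?_)
    have h3 := hse c hc
    exact go c (fun hcv => hve (hcv ▸ hc)) (fun hcz => he (hcz ▸ hc)) (by rintro rfl; exact h3 rfl)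
  rw [bw_append, bw_cons, h0]
  simp only [List.flatMap_append, List.flatMap_cons, e1, e2, e3, e4, e5, gv, g2, Nat.mul_zero,
    Nat.zero_add, List.append_nil]
  unfold cw
  rw [List.replicate_add]
  simp only [List.append_assoc, List.cons_append, List.nil_append]

/-- the projection to `z` and an earlier separator -/
def tg (z t : ℕ) : ℕ → List ℕ := fun a => if a = z then [0] else if a = t then [2] else []

theorem prt (R1 R2 : List ℕ) (r1 : ℕ) (B : ℕ → List ℕ) (e : List ℕ) (z : ℕ) (hz : z % 3 ≠ 2)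
    (hb : ∀ r, SFr (B r)) (hnd : (R1 ++ r1 :: 0 :: R2).Nodup) (h2 : ∀ r ∈ R2, z ∉ B r)
    (he : z ∉ e) (hse : SFr e) :
    (Bw (R1 ++ r1 :: 0 :: R2) B ++ e).flatMap (tg z (3 * r1 + 2)) =
      List.replicate ((Bw (R1 ++ [r1]) B).count z) 0 ++ 2 :: List.replicate ((B 0).count z) 0 := by
  have gz : tg z (3 * r1 + 2) z = [0] := by unfold tg; rw [if_pos rfl]
  have gt : tg z (3 * r1 + 2) (3 * r1 + 2) = [2] := by
    unfold tg
    rw [if_neg (by omega), if_pos rfl]
  have go : ∀ a, a ≠ z → a ≠ 3 * r1 + 2 → tg z (3 * r1 + 2) a = [] := by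
    intro a h1 h2
    unfold tg
    rw [if_neg h1, if_neg h2]
  have hsf : ∀ r, ∀ c ∈ B r, c ≠ z → tg z (3 * r1 + 2) c = [] := by
    intro r c hc hcz
    have h3 := hb r c hc
    exact go c hcz (by omega)
  have eb : ∀ r, (B r).flatMap (tg z (3 * r1 + 2)) = List.replicate ((B r).count z) 0 :=
    fun r => fm_one _ _ _ gz _ (hsf r)
  have hd := List.nodup_append.1 hnd
  have hr1 : r1 ∉ 0 :: R2 := (List.nodup_cons.1 hd.2.1).1
  have hr1' : ∀ r ∈ R1, r ≠ r1 := fun r hr => hd.2.2 r hr r1 List.mem_cons_self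
  have e1 : (Bw R1 B).flatMap (tg z (3 * r1 + 2)) = List.replicate ((Bw R1 B).count z) 0 := by
    refine fm_one _ _ _ gz _ (fun c hc hcz => ?_)
    obtain ⟨r, hr, h⟩ := mem_bw.1 hc
    rcases h with h | h
    · exact hsf r c h hcz
    · have h3 := hr1' r hr
      exact go c hcz (by omega)
  have e4 : (Bw R2 B).flatMap (tg z (3 * r1 + 2)) = [] := by
    refine fm_nil _ _ (fun c hc => ?_)
    obtain ⟨r, hr, h⟩ := mem_bw.1 hc
    rcases h with h | h
    · exact hsf r c h (fun hcz => h2 r hr (hcz ▸ h))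
    · have h3 : r ≠ r1 := fun h3 => hr1 (h3 ▸ List.mem_cons_of_mem _ hr)
      exact go c (by omega) (by omega)
  have e5 : e.flatMap (tg z (3 * r1 + 2)) = [] := by
    refine fm_nil _ _ (fun c hc => ?_)
    have h3 := hse c hc
    exact go c (fun hcz => he (hcz ▸ hc)) (by omega)
  have e6 : tg z (3 * r1 + 2) 2 = [] := by
    refine go 2 (by omega) (fun h => hr1 ?_)
    have : r1 = 0 := by omega
    rw [this]
    exact List.mem_cons_self
  rw [bw_append, bw_cons, bw_cons, bw_append, bw_cons, List.count_append, List.count_append]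
  simp only [List.flatMap_append, List.flatMap_cons, e1, e4, e5, e6, eb, gt, Nat.mul_zero,
    Nat.zero_add, List.append_nil, List.nil_append]
  have e7 : ((3 * r1 + 2) :: Bw [] B).count z = 0 := by
    rw [List.count_eq_zero]
    intro h
    rcases List.mem_cons.1 h with h | h
    · omega
    · exact absurd h (List.not_mem_nil)
  rw [e7, Nat.add_zero, List.replicate_add]
  simp only [List.append_assoc, List.cons_append, List.nil_append]

/-- the projection to `z` -/
theorem prz (z : ℕ) (l : List ℕ) :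
    l.flatMap (fun a => if a = z then [0] else []) = List.replicate (l.count z) 0 := by
  refine fm_one _ _ _ (if_pos rfl) _ (fun c _ hc => if_neg hc)

theorem ndsplit {R R1 R2 : List ℕ} (h : R = R1 ++ 0 :: R2) (hnd : R.Nodup) :
    0 ∉ R1 ∧ 0 ∉ R2 := by
  rw [h] at hnd
  have hd := List.nodup_append.1 hnd
  exact ⟨fun h1 => hd.2.2 0 h1 0 List.mem_cons_self rfl, (List.nodup_cons.1 hd.2.1).1⟩

/-- everything for a word in the normal form -/
structure Nf (n m : ℕ) (R R1 R2 : List ℕ) (B : ℕ → List ℕ) (e : List ℕ) : Prop where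
  sf : ∀ r, SFr (B r)
  se : SFr e
  ze : 3 * m + 1 ∉ e
  z2 : ∀ r ∈ R2, 3 * m + 1 ∉ B r
  v1 : ∀ v, v = 0 ∨ v = 3 → ∀ r ∈ R1, v ∉ B r
  v2 : ∀ v, v = 0 ∨ v = 3 → (Bw R2 B).count v = 1
  ve : ∀ v, v = 0 ∨ v = 3 → v ∉ e
  c0 : ∀ v, v = 0 ∨ v = 3 → (B 0).count v = 1

theorem nf_cw {n m : ℕ} {R R1 R2 : List ℕ} {B : ℕ → List ℕ} {e : List ℕ}
    (h : Nf n m R R1 R2 B e) (hR : R = R1 ++ 0 :: R2) (hnd : R.Nodup) (v : ℕ)
    (hv : v = 0 ∨ v = 3) :
    (Bw R B ++ e).flatMap (sg (3 * m + 1) v) =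
      cw ((Bw R1 B).count (3 * m + 1) + cb (B 0) (3 * m + 1) v)
        ((B 0).count (3 * m + 1) - cb (B 0) (3 * m + 1) v) := by
  have hmem : v ∈ B 0 := List.count_pos_iff.1 (by rw [h.c0 v hv]; omega)
  obtain ⟨P, Q, hPQ⟩ := List.append_of_mem hmem
  have hcnt := h.c0 v hv
  rw [hPQ, List.count_append, List.count_cons_self] at hcnt
  have hP : v ∉ P := List.count_eq_zero.1 (by omega)
  have hQ : v ∉ Q := List.count_eq_zero.1 (by omega)
  obtain ⟨n1, n2⟩ := ndsplit hR hnd
  have hvm : 3 * m + 1 ≠ v := by omega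
  have e1 := prj R1 R2 B e P Q (3 * m + 1) v (by omega) (by omega) hvm h.sf
    (fun r hr => ⟨h.v1 v hv r hr, fun h0 => n1 (h0 ▸ hr)⟩) hPQ hP hQ
    (fun r hr => ⟨h.z2 r hr, fun h0 => n2 (h0 ▸ hr)⟩) (h.v2 v hv) h.ze (h.ve v hv) h.se
  rw [hR, e1]
  have e2 : cb (B 0) (3 * m + 1) v = P.count (3 * m + 1) := by rw [hPQ]; exact cb_split _ _ _ _ hP
  have e3 : (B 0).count (3 * m + 1) = P.count (3 * m + 1) + Q.count (3 * m + 1) := by
    rw [hPQ, List.count_append, List.count_cons_of_ne (Ne.symm hvm)]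
  rw [e2, e3, Nat.add_sub_cancel_left]

theorem bw_count0 (R : List ℕ) (B : ℕ → List ℕ) (a : ℕ) (ha : a % 3 ≠ 2)
    (h : ∀ r ∈ R, a ∉ B r) : (Bw R B).count a = 0 := by
  rw [List.count_eq_zero]
  intro h1
  obtain ⟨r, hr, h2⟩ := mem_bw.1 h1
  rcases h2 with h2 | h2
  · exact h r hr h2
  · omega

theorem bw_count1 (R2 : List ℕ) (B : ℕ → List ℕ) (v : ℕ) (hv : v % 3 ≠ 2) (hnd : R2.Nodup)
    (h1 : 1 ∈ R2) (hc : (B 1).count v = 1) (ho : ∀ r ∈ R2, r ≠ 1 → v ∉ B r) :
    (Bw R2 B).count v = 1 := by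
  obtain ⟨R3, R4, h⟩ := List.append_of_mem h1
  subst h
  have hd := List.nodup_append.1 hnd
  rw [bw_append, bw_cons, List.count_append, List.count_append, List.count_cons_of_ne (by omega),
    bw_count0 R3 B v hv (fun r hr => ho r (List.mem_append_left _ hr)
      (fun h => hd.2.2 r hr 1 List.mem_cons_self h)),
    bw_count0 R4 B v hv (fun r hr => ho r (List.mem_append_right _ (List.mem_cons_of_mem _ hr))
      (fun h => (List.nodup_cons.1 hd.2.1).1 (h ▸ hr))), hc]

/-- the blocks of the left word -/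
def Bl (n m : ℕ) (c X : List ℕ) : ℕ → List ℕ := fun r =>
  if r = 0 then KZ n (3 * m + 1) X else if r = 1 then 0 :: (c ++ [3]) else [3 * (r - 2) + 1]

theorem exz_eq (n m : ℕ) (R c X : List ℕ) : ExZ n m R c X = Bw R (Bl n m c X) ++ [] := by
  rw [List.append_nil]
  rfl

theorem kz_eq (n z : ℕ) {X : List ℕ} (hX : XX X) :
    (X = [0, 3] ∧ KZ n z X = List.replicate n z ++ 0 :: (List.replicate (2 * n) z ++
      (List.replicate (n + 1) z ++ 3 :: List.replicate (2 * n - 1) z))) ∨
    (X = [3, 0] ∧ KZ n z X = List.replicate (n + 1) z ++ 3 :: (List.replicate (2 * n - 1) z ++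
      (List.replicate n z ++ 0 :: List.replicate (2 * n) z))) := by
  rcases hX with hX | hX
  · refine Or.inl ⟨hX, ?_⟩
    subst hX
    unfold KZ tk lam
    simp
  · refine Or.inr ⟨hX, ?_⟩
    subst hX
    unfold KZ tk lam
    simp

theorem kz_mem {n z : ℕ} {X : List ℕ} (hX : XX X) {a : ℕ} (h : a ∈ KZ n z X) :
    a = z ∨ a = 0 ∨ a = 3 := by
  rcases kz_eq n z hX with ⟨_, h1⟩ | ⟨_, h1⟩
  · rw [h1] at h
    simp only [List.mem_append, List.mem_cons, List.mem_replicate] at h
    omega
  · rw [h1] at h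
    simp only [List.mem_append, List.mem_cons, List.mem_replicate] at h
    omega

/-- the numbers of the left word -/
theorem kz_num {n m : ℕ} (hn : 2 ≤ n) {X : List ℕ} (hX : XX X) (v : ℕ) (hv : v = 0 ∨ v = 3) :
    (KZ n (3 * m + 1) X).count v = 1 ∧ (KZ n (3 * m + 1) X).count (3 * m + 1) = 6 * n ∧
      cb (KZ n (3 * m + 1) X) (3 * m + 1) v ≡ lam v [MOD n] ∧
        cb (KZ n (3 * m + 1) X) (3 * m + 1) v ≤ 6 * n := by
  have n0 : ∀ j : ℕ, (List.replicate j (3 * m + 1)).count 0 = 0 := fun j => by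
    rw [List.count_eq_zero, List.mem_replicate]
    omega
  have n3 : ∀ j : ℕ, (List.replicate j (3 * m + 1)).count 3 = 0 := fun j => by
    rw [List.count_eq_zero, List.mem_replicate]
    omega
  have m0 : ∀ j : ℕ, (0 : ℕ) ∉ List.replicate j (3 * m + 1) := fun j => by
    rw [List.mem_replicate]
    omega
  have m3 : ∀ j : ℕ, (3 : ℕ) ∉ List.replicate j (3 * m + 1) := fun j => by
    rw [List.mem_replicate]
    omega
  have l0 : lam 0 = 0 := rfl
  have l3 : lam 3 = 1 := rfl
  rcases kz_eq n (3 * m + 1) hX with ⟨_, h1⟩ | ⟨_, h1⟩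
  · have ec : (KZ n (3 * m + 1) X).count (3 * m + 1) = 6 * n := by
      rw [h1]
      simp only [List.count_append, List.count_replicate_self]
      rw [List.count_cons_of_ne (by omega), List.count_append, List.count_append,
        List.count_cons_of_ne (by omega)]
      simp only [List.count_replicate_self]
      omega
    rcases hv with hv | hv
    · subst hv
      have e1 : cb (KZ n (3 * m + 1) X) (3 * m + 1) 0 = n := by
        rw [h1, cb_split _ _ _ _ (m0 n), List.count_replicate_self]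
      refine ⟨?_, ec, ?_, ?_⟩
      · rw [h1]
        simp only [List.count_append, List.count_cons_self, n0]
        rw [List.count_cons_of_ne (by omega), n0]
      · rw [e1, l0]
        exact Nat.modEq_zero_iff_dvd.2 (dvd_refl n)
      · rw [e1]; omega
    · subst hv
      have h2 : KZ n (3 * m + 1) X = (List.replicate n (3 * m + 1) ++ 0 ::
          (List.replicate (2 * n) (3 * m + 1) ++ List.replicate (n + 1) (3 * m + 1))) ++
            3 :: List.replicate (2 * n - 1) (3 * m + 1) := by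
        rw [h1]
        simp only [List.append_assoc, List.cons_append]
      have e1 : cb (KZ n (3 * m + 1) X) (3 * m + 1) 3 = 4 * n + 1 := by
        rw [h2, cb_split]
        · rw [List.count_append, List.count_cons_of_ne (by omega), List.count_append]
          simp only [List.count_replicate_self]
          omega
        · simp only [List.mem_append, List.mem_cons, List.mem_replicate]
          omega
      refine ⟨?_, ec, ?_, ?_⟩
      · rw [h2, List.count_append, List.count_append, List.count_cons_self, n3,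
          List.count_cons_of_ne (by omega), List.count_append, n3, n3, n3]
      · rw [e1, l3]
        change (4 * n + 1) % n = 1 % n
        rw [Nat.add_comm, Nat.add_mul_mod_self_right]
      · rw [e1]; omega
  · have ec : (KZ n (3 * m + 1) X).count (3 * m + 1) = 6 * n := by
      rw [h1]
      simp only [List.count_append, List.count_replicate_self]
      rw [List.count_cons_of_ne (by omega), List.count_append, List.count_append,
        List.count_cons_of_ne (by omega)]
      simp only [List.count_replicate_self]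
      omega
    rcases hv with hv | hv
    · subst hv
      have h2 : KZ n (3 * m + 1) X = (List.replicate (n + 1) (3 * m + 1) ++ 3 ::
          (List.replicate (2 * n - 1) (3 * m + 1) ++ List.replicate n (3 * m + 1))) ++
            0 :: List.replicate (2 * n) (3 * m + 1) := by
        rw [h1]
        simp only [List.append_assoc, List.cons_append]
      have e1 : cb (KZ n (3 * m + 1) X) (3 * m + 1) 0 = 4 * n := by
        rw [h2, cb_split]
        · rw [List.count_append, List.count_cons_of_ne (by omega), List.count_append]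
          simp only [List.count_replicate_self]
          omega
        · simp only [List.mem_append, List.mem_cons, List.mem_replicate]
          omega
      refine ⟨?_, ec, ?_, ?_⟩
      · rw [h2, List.count_append, List.count_append, List.count_cons_self, n0,
          List.count_cons_of_ne (by omega), List.count_append, n0, n0, n0]
      · rw [e1, l0]
        exact Nat.modEq_zero_iff_dvd.2 (Dvd.intro_left 4 rfl)
      · rw [e1]; omega
    · subst hv
      have e1 : cb (KZ n (3 * m + 1) X) (3 * m + 1) 3 = n + 1 := by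
        rw [h1, cb_split _ _ _ _ (m3 (n + 1)), List.count_replicate_self]
      refine ⟨?_, ec, ?_, ?_⟩
      · rw [h1]
        simp only [List.count_append, List.count_cons_self, n3]
        rw [List.count_cons_of_ne (by omega), n3]
      · rw [e1, l3]
        change (n + 1) % n = 1 % n
        rw [Nat.add_mod_left]
      · rw [e1]; omega

theorem bfr_mem {R R1 R2 : List ℕ} (hR : R = R1 ++ 0 :: R2) {r : ℕ} (hr : r ∈ R2) :
    Bfr R 0 r := by
  obtain ⟨A, C, h⟩ := List.append_of_mem hr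
  exact ⟨R1, A, C, by rw [hR, h]⟩

theorem mem_r2 {R R1 R2 : List ℕ} (hR : R = R1 ++ 0 :: R2) (hnd : R.Nodup) {r : ℕ} (h0 : r ≠ 0)
    (h : Bfr R 0 r) : r ∈ R2 ∧ r ∉ R1 := by
  obtain ⟨A, D, C, h1⟩ := h
  rw [h1] at hnd
  have hd := List.nodup_append.1 hnd
  have hA : 0 ∉ A := fun h2 => hd.2.2 0 h2 0 List.mem_cons_self rfl
  have hD : (0 : ℕ) ∉ D ++ r :: C := (List.nodup_cons.1 hd.2.1).1
  rw [hR] at h1
  have hnd2 : (R1 ++ 0 :: R2).Nodup := by rw [h1]; exact hnd
  obtain ⟨n1, n2⟩ := ndsplit rfl hnd2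
  have h2 : R1 = A := by
    have e1 : (R1 ++ 0 :: R2).takeWhile (fun c => decide (c ≠ 0)) = R1 := by
      rw [List.takeWhile_append_of_pos]
      · rw [List.takeWhile_cons_of_neg (by simp), List.append_nil]
      · intro a ha
        have : a ≠ 0 := fun h => n1 (h ▸ ha)
        simp [this]
    have e2 : (A ++ 0 :: (D ++ r :: C)).takeWhile (fun c => decide (c ≠ 0)) = A := by
      rw [List.takeWhile_append_of_pos]
      · rw [List.takeWhile_cons_of_neg (by simp), List.append_nil]
      · intro a ha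
        have : a ≠ 0 := fun h => hA (h ▸ ha)
        simp [this]
    rw [← e1, h1, e2]
  subst h2
  have h3 : 0 :: R2 = 0 :: (D ++ r :: C) := List.append_cancel_left h1
  have h4 : R2 = D ++ r :: C := (List.cons.inj h3).2
  have h5 : r ∈ R2 := by rw [h4]; exact List.mem_append_right _ List.mem_cons_self
  refine ⟨h5, fun h6 => ?_⟩
  exact hd.2.2 r h6 r (List.mem_cons_of_mem _ (List.mem_append_right _ List.mem_cons_self)) rfl

theorem cb_le (l : List ℕ) (x v : ℕ) : cb l x v ≤ l.count x := by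
  unfold MWGR.cb
  exact (List.takeWhile_sublist _).count_le x

/-- the left word -/
theorem nf_left {n m : ℕ} (hn : 2 ≤ n) {R R1 R2 c X : List ℕ} (hc : Can m c)
    (hp : R.Perm (List.range (m + 2))) (hR : R = R1 ++ 0 :: R2) (h01 : Bfr R 0 1) (hX : XX X) :
    Nf n m R R1 R2 (Bl n m c X) [] ∧ (Bw R1 (Bl n m c X)).count (3 * m + 1) = 0 := by
  have hnd : R.Nodup := hp.nodup_iff.2 List.nodup_range
  have hmem : ∀ r, r ∈ R ↔ r < m + 2 := fun r => by rw [hp.mem_iff, List.mem_range]
  obtain ⟨n1, n2⟩ := ndsplit hR hnd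
  obtain ⟨m2, m1⟩ := mem_r2 hR hnd (by omega) h01
  have hcm : ∀ a ∈ c, a ≠ 0 ∧ a ≠ 3 ∧ a ≠ 3 * m + 1 ∧ a % 3 ≠ 2 := by
    intro a ha
    rcases hc.lo a ha with ⟨d, h1, h2⟩ | ⟨h1, h2, _⟩ <;> omega
  have hb0 : Bl n m c X 0 = KZ n (3 * m + 1) X := if_pos rfl
  have hb1 : Bl n m c X 1 = 0 :: (c ++ [3]) := rfl
  have hb2 : ∀ r, r ≠ 0 → r ≠ 1 → Bl n m c X r = [3 * (r - 2) + 1] := by
    intro r h1 h2
    unfold Bl
    rw [if_neg h1, if_neg h2]
  have hr1 : ∀ r ∈ R1, r ≠ 0 ∧ r ≠ 1 ∧ r < m + 2 := fun r hr =>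
    ⟨fun h => n1 (h ▸ hr), fun h => m1 (h ▸ hr),
      (hmem r).1 (by rw [hR]; exact List.mem_append_left _ hr)⟩
  have hr2 : ∀ r ∈ R2, r ≠ 0 ∧ r < m + 2 := fun r hr =>
    ⟨fun h => n2 (h ▸ hr),
      (hmem r).1 (by rw [hR]; exact List.mem_append_right _ (List.mem_cons_of_mem _ hr))⟩
  have hnd2 : R2.Nodup := by
    rw [hR] at hnd
    exact (List.nodup_cons.1 (List.nodup_append.1 hnd).2.1).2
  refine ⟨⟨?_, ?_, ?_, ?_, ?_, ?_, ?_, ?_⟩, ?_⟩
  · intro r a ha
    by_cases h0 : r = 0
    · rw [h0, hb0] at ha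
      rcases kz_mem hX ha with h | h | h <;> omega
    · by_cases h1 : r = 1
      · rw [h1, hb1, List.mem_cons, List.mem_append, List.mem_singleton] at ha
        rcases ha with ha | ha | ha
        · omega
        · exact (hcm a ha).2.2.2
        · omega
      · rw [hb2 r h0 h1, List.mem_singleton] at ha
        omega
  · intro a ha
    exact absurd ha (List.not_mem_nil)
  · exact List.not_mem_nil
  · intro r hr h
    obtain ⟨h0, h2⟩ := hr2 r hr
    by_cases h1 : r = 1
    · rw [h1, hb1, List.mem_cons, List.mem_append, List.mem_singleton] at h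
      rcases h with h | h | h
      · omega
      · exact (hcm _ h).2.2.1 rfl
      · omega
    · rw [hb2 r h0 h1, List.mem_singleton] at h
      omega
  · intro v hv r hr h
    obtain ⟨h0, h1, h2⟩ := hr1 r hr
    rw [hb2 r h0 h1, List.mem_singleton] at h
    omega
  · intro v hv
    refine bw_count1 R2 _ v (by omega) hnd2 m2 ?_ ?_
    · rw [hb1]
      have h1 : c.count v = 0 := by
        rw [List.count_eq_zero]
        intro h
        have := hcm v h
        omega
      rcases hv with hv | hv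
      · subst hv
        rw [List.count_cons_self, List.count_append, h1]
        rfl
      · subst hv
        rw [List.count_cons_of_ne (by omega), List.count_append, h1]
        rfl
    · intro r hr h1 h
      rw [hb2 r (hr2 r hr).1 h1, List.mem_singleton] at h
      omega
  · intro v _
    exact List.not_mem_nil
  · intro v hv
    rw [hb0]
    exact (kz_num hn hX v hv).1
  · refine bw_count0 R1 _ _ (by omega) (fun r hr h => ?_)
    obtain ⟨h0, h1, h2⟩ := hr1 r hr
    rw [hb2 r h0 h1, List.mem_singleton] at h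
    omega

/-- the right word -/
theorem nf_right {n m : ℕ} {R R1 R2 c : List ℕ} {B : ℕ → List ℕ} {e : List ℕ}
    (hb : Bz m R c B e) (hp : R.Perm (List.range (m + 2))) (hR : R = R1 ++ 0 :: R2)
    (h01 : Bfr R 0 1) : Nf n m R R1 R2 B e := by
  have hnd : R.Nodup := hp.nodup_iff.2 List.nodup_range
  obtain ⟨n1, n2⟩ := ndsplit hR hnd
  obtain ⟨m2, m1⟩ := mem_r2 hR hnd (by omega) h01
  have hnd2 : R2.Nodup := by
    rw [hR] at hnd
    exact (List.nodup_cons.1 (List.nodup_append.1 hnd).2.1).2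
  have i1 : ∀ r ∈ R1, r ∈ R := fun r hr => by rw [hR]; exact List.mem_append_left _ hr
  have i2 : ∀ r ∈ R2, r ∈ R := fun r hr => by
    rw [hR]; exact List.mem_append_right _ (List.mem_cons_of_mem _ hr)
  refine ⟨hb.sf, hb.se, hb.ze, fun r hr => hb.z1 r (i2 r hr) (bfr_mem hR hr), ?_, ?_, ?_, ?_⟩
  · intro v hv r hr
    have h0 : r ≠ 0 := fun h => n1 (h ▸ hr)
    have h1 : r ≠ 1 := fun h => m1 (h ▸ hr)
    rcases hv with hv | hv
    · subst hv; exact hb.xo r (i1 r hr) h0 h1
    · subst hv; exact hb.yo r (i1 r hr) h0 h1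
  · intro v hv
    refine bw_count1 R2 B v (by omega) hnd2 m2 ?_ ?_
    · rcases hv with hv | hv
      · subst hv; exact hb.x1
      · subst hv; exact hb.y1
    · intro r hr h1
      have h0 : r ≠ 0 := fun h => n2 (h ▸ hr)
      rcases hv with hv | hv
      · subst hv; exact hb.xo r (i2 r hr) h0 h1
      · subst hv; exact hb.yo r (i2 r hr) h0 h1
  · intro v hv
    rcases hv with hv | hv
    · subst hv; exact hb.xe
    · subst hv; exact hb.ye
  · intro v hv
    rcases hv with hv | hv
    · subst hv; exact hb.x0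
    · subst hv; exact hb.y0

theorem lbz (hlqi : LqiStmt) (hlqr : LqrStmt) (hlqg : LqgStmt) (hbaz : BazStmt) : LbzStmt := by
  intro n β m R c X B e hz hc hp h01 hX hB he hw
  have hb := hbaz n β m R c X B e hz hc hp h01 hX hB he hw
  have hn := hz.n2
  have hnd : R.Nodup := hp.nodup_iff.2 List.nodup_range
  have h0R : (0 : ℕ) ∈ R := by rw [hp.mem_iff, List.mem_range]; omega
  obtain ⟨R1, R2, hR⟩ := List.append_of_mem h0R
  obtain ⟨hl, hl0⟩ := nf_left hn hc hp hR h01 hX
  have hr : Nf n m R R1 R2 B e := nf_right hb hp hR h01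
  obtain ⟨q1, q2, q3, q4, q5⟩ := hlqr n β hz
  rw [exz_eq] at hw
  -- the numbers
  have cl : ∀ {B' : ℕ → List ℕ} {e' : List ℕ}, Nf n m R R1 R2 B' e' →
      (Bw R B' ++ e').count (3 * m + 1) =
        (Bw R1 B').count (3 * m + 1) + (B' 0).count (3 * m + 1) := by
    intro B' e' h
    rw [hR, bw_append, bw_cons, List.count_append, List.count_append, List.count_append,
      List.count_cons_of_ne (by omega), bw_count0 R2 B' _ (by omega) h.z2,
      List.count_eq_zero.2 h.ze]
    omega
  have hk0 := kz_num (m := m) hn hX 0 (Or.inl rfl)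
  have hb0 : Bl n m c X 0 = KZ n (3 * m + 1) X := if_pos rfl
  have cleft : (Bw R (Bl n m c X) ++ []).count (3 * m + 1) = 6 * n := by
    rw [cl hl, hl0, hb0, hk0.2.1]
    omega
  have cright := cl hr
  have hzin : 3 * m + 1 ∈ Bw R B ++ e := by
    by_contra hne
    have h1 := RR.content hz.i3 hw.symm hne
    rw [← List.count_eq_zero, cleft] at h1
    omega
  have hge : 2 ≤ (Bw R B ++ e).count (3 * m + 1) := hb.mu _ hzin (by omega)
  rw [cright] at hge
  -- (3)
  have hmod : 6 * n ≡ (Bw R1 B).count (3 * m + 1) + (B 0).count (3 * m + 1) [MOD n] := by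
    have h1 := hw.sub (fun a => if a = 3 * m + 1 then [0] else [])
    rw [prz, prz, cleft, cright] at h1
    exact hz.ex _ _ (by omega) hge h1
  have h6 : (0 : ℕ) ≡ 6 * n [MOD n] := (Nat.modEq_zero_iff_dvd.2 (Dvd.intro_left 6 rfl)).symm
  have hgN : (Bw R1 B).count (3 * m + 1) + (B 0).count (3 * m + 1) ≡ 0 [MOD n] :=
    (h6.trans hmod).symm
  -- (2)
  have hg : Lq n β 0 ((Bw R1 B).count (3 * m + 1)) := by
    rcases List.eq_nil_or_concat R1 with h | ⟨R0, r1, h⟩
    · rw [h]
      exact q1 0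
    · rw [List.concat_eq_append] at h
      have hR' : R = R0 ++ r1 :: 0 :: R2 := by
        rw [hR, h, List.append_assoc]
        rfl
      have hnd' : (R0 ++ r1 :: 0 :: R2).Nodup := hR' ▸ hnd
      have h1 := hw.sub (tg (3 * m + 1) (3 * r1 + 2))
      rw [hR', prt R0 R2 r1 _ _ _ (by omega) hl.sf hnd' hl.z2 hl.ze hl.se,
        prt R0 R2 r1 _ _ _ (by omega) hr.sf hnd' hr.z2 hr.ze hr.se, ← h, hl0, hb0, hk0.2.1] at h1
      exact hlqg n β hz (6 * n) _ _ (by omega) hge h1
  have hgc : ∀ j, Lq n β j ((Bw R1 B).count (3 * m + 1) + j) := by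
    intro j
    have h1 := (q5 0 ((Bw R1 B).count (3 * m + 1)) j).1 hg
    rw [Nat.zero_add] at h1
    exact h1
  refine ⟨?_, ?_⟩
  · intro v hv
    have h1 := hw.sub (sg (3 * m + 1) v)
    rw [nf_cw hl hR hnd v hv, nf_cw hr hR hnd v hv, hl0, hb0] at h1
    obtain ⟨_, k2, k3, k4⟩ := kz_num (m := m) hn hX v hv
    rw [k2] at h1
    have hle := cb_le (B 0) (3 * m + 1) v
    have h2 := hlqi n β hz _ _ _ _ (by omega) (by omega) h1
    have h3 : Lq n β (lam v) ((Bw R1 B).count (3 * m + 1) + cb (B 0) (3 * m + 1) v) := by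
      refine q4 _ _ _ _ ?_ (Nat.ModEq.refl _) h2
      rw [Nat.zero_add]
      exact k3
    exact q3 _ _ _ (hgc _) (q2 _ _ h3)
  · exact q4 _ _ _ _ (Nat.ModEq.refl _) hgN (hgc _)

end Pool.Agent.MWFE.H20
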