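import Pool.Agent.Helper20_MWFE.EZA

/-!
# Squad MWFE, row NEZ: no letter `z` can be inserted behind a simple letter (MP_23468a_al)
-/

set_option autoImplicit false

namespace Pool.Agent.MWFE.H20E

open Pool.Agent.Helper14_MV Pool.Agent.Helper2_MV Pool.Agent.MVD Pool.Agent.MWFE
open Pool.Agent.MWE (Can XX fxy dxy dx dy up cp L4 pr Xs xl isx Fs nd nr)
open Pool.Agent.MWGR (cb)

theorem nez (hlcf : LcfStmt) (hlqi : LqiStmt) (hlq1 : Lq1Stmt) : NezStmt := by
  intro n β hz N N' N'' hN h
  have s1 := h.sub (fun a => if a = 0 then [0] else if a = 2 then [2, 3] else [])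
  simp only [List.flatMap_append, List.flatMap_cons, List.flatMap_nil] at s1
  rw [fm_rep _ 0 0 N (if_pos rfl), fm_rep _ 0 0 N' (if_pos rfl), fm_rep _ 0 0 N'' (if_pos rfl)]
    at s1
  simp only [if_true, OfNat.ofNat_ne_zero, if_false, List.append_nil, List.cons_append,
    List.nil_append] at s1
  -- s1 : 0^N 2 3 ~ 0^N' 2 3 0^N''
  have a1 := (RR.refl (β := β) [0, 3, 0]).append s1
  have a3 := (RR.refl (β := β) [0, 0, 3]).append s1
  obtain ⟨j, rfl⟩ : ∃ j, N'' = j + 1 := ⟨N'' - 1, by omega⟩
  have a2 := (hlcf β hz.ff hz.zz [0] (List.replicate N' 0 ++ [2]) [3, 0] (List.replicate j 0) 3 0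
    (by simp) (by simp)).1 (by
      intro d hd
      simp only [List.mem_cons, List.not_mem_nil, or_false] at hd
      rcases hd with hd | hd
      · subst hd
        simp only [List.count_append, List.count_cons, List.count_replicate, List.count_nil]
        simp
      · subst hd
        simp only [List.count_append, List.count_cons, List.count_replicate, List.count_nil]
        simp
        omega)
  simp only [List.append_assoc, List.cons_append, List.nil_append] at a1 a2 a3
  rw [List.replicate_succ] at a1 a3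
  have a4 : RR β (cw 1 (N + 1)) (cw 2 N) := by
    have e1 : cw 1 (N + 1) = 0 :: 3 :: 0 :: (List.replicate N 0 ++ [2, 3]) := by
      unfold cw
      rw [List.replicate_succ (n := N)]
      rfl
    have e2 : cw 2 N = 0 :: 0 :: 3 :: (List.replicate N 0 ++ [2, 3]) := rfl
    rw [e1, e2]
    exact β.trans a1 (β.trans a2 (RR.symm a3))
  exact hlq1 n β hz 1 (hlqi n β hz 1 (N + 1) 2 N (by omega) (by omega) a4)

end Pool.Agent.MWFE.H20E
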