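import Pool.Agent.Helper20_MWFE.HWF

/-!
# Squad MWFE, row PHX: a factor of heavy letters can be rearranged (MP_23468a_al)
-/

set_option autoImplicit false

namespace Pool.Agent.MWFE.H20B

open Pool.Agent.Helper14_MV Pool.Agent.Helper2_MV Pool.Agent.MVD Pool.Agent.MWFE

theorem phx (hhhx : HhxStmt) : PhxStmt := by
  intro n β hz p q Y Y' hperm
  have key : ∀ (A : List ℕ) (Y Y' : List ℕ), Y.Perm Y' → ∀ (D : List ℕ),
      (∀ h ∈ A ++ (Y ++ D), Hw (p ++ ((A ++ (Y ++ D)) ++ q)) h) →
        RR β (p ++ ((A ++ (Y ++ D)) ++ q)) (p ++ ((A ++ (Y' ++ D)) ++ q)) := by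
    intro A Y Y' h
    induction h generalizing A with
    | nil => intro D _; exact RR.refl _
    | cons x _ ih =>
      intro D hh
      have h1 := ih (A ++ [x]) D (by
        simp only [List.append_assoc, List.cons_append, List.nil_append] at hh ⊢
        exact hh)
      simp only [List.append_assoc, List.cons_append, List.nil_append] at h1 ⊢
      exact h1
    | swap x y l =>
      intro D hh
      have h1 := hhhx n β hz (p ++ A) (l ++ (D ++ q)) y x
      have hy := hh y (by
        simp only [List.mem_append, List.mem_cons]
        tauto)
      have hx := hh x (by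
        simp only [List.mem_append, List.mem_cons]
        tauto)
      simp only [List.append_assoc, List.cons_append, List.nil_append] at h1 hx hy ⊢
      exact h1 hy hx
    | trans h1 h2 ih1 ih2 =>
      intro D hh
      have a1 := ih1 A D hh
      refine β.trans a1 (ih2 A D (fun h hm => ?_))
      have hp := (h1.append_right D).append_left A
      refine hw_perm hp (fun c hc => hw_two (hh c hc)) (hh h ?_)
      exact hp.mem_iff.2 hm
  intro hh
  have h1 := key [] Y Y' hperm []
  simp only [List.nil_append, List.append_nil] at h1
  exact h1 hh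

end Pool.Agent.MWFE.H20B
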