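import Pool.Agent.Helper20_MWFE.UPZ
import Pool.Agent.Helper11_MWE.PLMb

/-!
# Squad MWFE, row PMZ: rearrangements of block `0` which keep the order of `x`, `y`, `z` (MP_23468a_al)
-/

set_option autoImplicit false

namespace Pool.Agent.MWFE.H20U

open Pool.Agent.Helper14_MV Pool.Agent.Helper2_MV Pool.Agent.MVD Pool.Agent.MWFE
open Pool.Agent.MWE (Can XX fxy dxy dx dy up cp L4 pr Xs xl isx Fs nd nr)
open Pool.Agent.MWGR (cb)

theorem bw_congr {R : List ℕ} {B B' : ℕ → List ℕ} (h : ∀ r ∈ R, B r = B' r) :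
    Bw R B = Bw R B' := by
  induction R with
  | nil => rfl
  | cons a R ih =>
    show (B a ++ [3 * a + 2]) ++ Bw R B = (B' a ++ [3 * a + 2]) ++ Bw R B'
    rw [h a (by simp), ih fun r hr => h r (List.mem_cons_of_mem _ hr)]

theorem bw_append (R S : List ℕ) (B : ℕ → List ℕ) : Bw (R ++ S) B = Bw R B ++ Bw S B :=
  List.flatMap_append

theorem bw_cons (a : ℕ) (S : List ℕ) (B : ℕ → List ℕ) :
    Bw (a :: S) B = B a ++ (3 * a + 2) :: Bw S B := by
  show (B a ++ [3 * a + 2]) ++ Bw S B = _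
  simp

theorem pmz (hlcf : LcfStmt) (hhhx : HhxStmt) (hupz : UpzStmt) (hhwz : HwzStmt) : PmzStmt := by
  intro n β m R c B e hz hc hR h01 hB D hD hf
  have hnd : R.Nodup := hR.nodup_iff.2 List.nodup_range
  obtain ⟨A, M, C, hRe⟩ := h01
  have hnd2 := hnd
  rw [hRe] at hnd2
  have d1 := List.nodup_append.1 hnd2
  have nA : 0 ∉ A := fun h => d1.2.2 0 h 0 List.mem_cons_self rfl
  have d2 := List.nodup_cons.1 d1.2.1
  have nM : 0 ∉ M := fun h => d2.1 (List.mem_append_left _ h)
  have nC : 0 ∉ C := fun h => d2.1 (List.mem_append_right _ (List.mem_cons_of_mem _ h))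
  have hup : ∀ D : List ℕ, Bw R (up B 0 D) ++ e =
      Bw A B ++ (D ++ 2 :: (Bw M B ++ (B 1 ++ 5 :: (Bw C B ++ e)))) := by
    intro D
    have e0 : ∀ S : List ℕ, 0 ∉ S → Bw S (up B 0 D) = Bw S B := fun S hS =>
      bw_congr (fun q hq => by
        unfold MWE.up
        rw [if_neg]
        rintro rfl
        exact hS hq)
    have e1 : up B 0 D 0 = D := if_pos rfl
    have e2 : up B 0 D 1 = B 1 := if_neg (by omega)
    rw [hRe, bw_append, bw_cons, bw_append, bw_cons, e0 A nA, e0 M nM, e0 C nC, e1, e2]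
    simp only [List.append_assoc, List.cons_append, Nat.mul_zero, Nat.zero_add, Nat.mul_one]
  have h0R : 0 ∈ R := by rw [hR.mem_iff, List.mem_range]; omega
  have x1 : (0 : ℕ) ∈ B 1 := List.count_pos_iff.1 (by rw [hB.x1]; omega)
  have y1 : (3 : ℕ) ∈ B 1 := List.count_pos_iff.1 (by rw [hB.y1]; omega)
  -- the letters of block 0
  have hlet : ∀ a ∈ B 0, a = 3 * m + 1 ∨ ((a = 0 ∨ a = 3) ∧ a ∈ B 1) ∨
      ((a % 3 = 0 ∧ 6 ≤ a) ∧ a ∈ B 1) := by
    intro a ha
    have h1 := hB.ct a (List.mem_append_left _ (mem_bw.2 ⟨0, h0R, Or.inl ha⟩)) (hB.sf 0 a ha)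
    rcases h1 with h1 | h1 | h1 | h1
    · exact Or.inr (Or.inl ⟨Or.inl h1, h1 ▸ x1⟩)
    · exact Or.inr (Or.inl ⟨Or.inr h1, h1 ▸ y1⟩)
    · exact Or.inl h1
    · rcases hc.lo a h1 with ⟨d, hd, h2⟩ | ⟨h2, h3, _⟩
      · exfalso
        have h3 := hB.li d hd 0 h0R
        rw [if_neg (by omega), List.count_eq_zero] at h3
        exact h3 (h2 ▸ ha)
      · exact Or.inr (Or.inr ⟨⟨h2, h3⟩, hB.fu a h1⟩)
  refine Pool.Agent.MWE.H11.plm (fun a => decide (a = 0 ∨ a = 3 ∨ a = 3 * m + 1))
    (fun D => RR β (Bw R B ++ e) (Bw R (up B 0 D) ++ e)) (B 0) D hD.symm hf.symm ?_ ?_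
  · intro A' C' a b hp _ hab hP hE
    change RR β (Bw R B ++ e) (Bw R (up B 0 (A' ++ a :: b :: C')) ++ e) at hE
    change RR β (Bw R B ++ e) (Bw R (up B 0 (A' ++ b :: a :: C')) ++ e)
    refine β.trans hE ?_
    have hbf : Bfz m R c (up B 0 (A' ++ a :: b :: C')) e :=
      ((hupz m R c B e hR).1 0 _ hp).2 hB
    have ha : a ∈ B 0 := hp.mem_iff.1 (by simp)
    have hb : b ∈ B 0 := hp.mem_iff.1 (by simp)
    have main : RR β (Bw R (up B 0 (A' ++ a :: b :: C')) ++ e)
        (Bw R (up B 0 (A' ++ b :: a :: C')) ++ e) := by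
      by_cases hin : a ∈ B 1 ∧ b ∈ B 1 ∧ a ≠ 3 * m + 1 ∧ b ≠ 3 * m + 1
      · have h1 := (hlcf β hz.ff hz.zz (Bw A B ++ A') (C' ++ 2 :: Bw M B) (B 1)
          (5 :: (Bw C B ++ e)) a b hin.1 hin.2.1).1 (fun d hd => by
            have h2 := hbf.mu d (by
              refine List.mem_append_left _ (mem_bw.2 ⟨1, ?_, Or.inl ?_⟩)
              · rw [hR.mem_iff, List.mem_range]; omega
              · unfold MWE.up
                rw [if_neg (by omega)]
                exact hd) (hB.sf 1 d hd)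
            rw [hup] at h2
            simp only [List.append_assoc, List.cons_append] at h2 ⊢
            exact h2)
        rw [hup, hup]
        simp only [List.append_assoc, List.cons_append] at h1 ⊢
        exact h1
      · -- one of them is z, the other one is local
        have hloc : (a = 3 * m + 1 ∨ (a % 3 = 0 ∧ 6 ≤ a)) ∧
            (b = 3 * m + 1 ∨ (b % 3 = 0 ∧ 6 ≤ b)) := by
          rcases hlet a ha with h1 | ⟨h1, h2⟩ | ⟨h1, h2⟩
          · rcases hlet b hb with h3 | ⟨h3, h4⟩ | ⟨h3, h4⟩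
            · exact ⟨Or.inl h1, Or.inl h3⟩
            · exfalso
              refine hP ⟨decide_eq_true (Or.inr (Or.inr h1)), decide_eq_true ?_⟩
              rcases h3 with h3 | h3
              · exact Or.inl h3
              · exact Or.inr (Or.inl h3)
            · exact ⟨Or.inl h1, Or.inr h3⟩
          · rcases hlet b hb with h3 | ⟨h3, h4⟩ | ⟨h3, h4⟩
            · exfalso
              refine hP ⟨decide_eq_true ?_, decide_eq_true (Or.inr (Or.inr h3))⟩
              rcases h1 with h1 | h1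
              · exact Or.inl h1
              · exact Or.inr (Or.inl h1)
            · exact absurd ⟨h2, h4, by omega, by omega⟩ hin
            · exact absurd ⟨h2, h4, by omega, by omega⟩ hin
          · rcases hlet b hb with h3 | ⟨h3, h4⟩ | ⟨h3, h4⟩
            · exact ⟨Or.inr h1, Or.inl h3⟩
            · exact absurd ⟨h2, h4, by omega, by omega⟩ hin
            · exact absurd ⟨h2, h4, by omega, by omega⟩ hin
        have hma : ∀ d ∈ A' ++ a :: b :: C', d ∈ Bw R (up B 0 (A' ++ a :: b :: C')) ++ e := by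
          intro d hd
          refine List.mem_append_left _ (mem_bw.2 ⟨0, h0R, Or.inl ?_⟩)
          unfold MWE.up
          rw [if_pos rfl]
          exact hd
        have h1 := hhwz m R c _ e hbf.toBz a (hma a (by simp)) hloc.1
        have h2 := hhwz m R c _ e hbf.toBz b (hma b (by simp)) hloc.2
        have h3 := hhhx n β hz (Bw A B ++ A') (C' ++ 2 :: (Bw M B ++ (B 1 ++ 5 :: (Bw C B ++ e))))
          a b
        rw [hup] at h1 h2
        simp only [List.append_assoc, List.cons_append] at h1 h2 h3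
        rw [hup, hup]
        simp only [List.append_assoc, List.cons_append]
        exact h3 h1 h2
    exact main
  · have e1 : up B 0 (B 0) = B := by
      funext q
      unfold MWE.up
      by_cases h : q = 0
      · rw [if_pos h, h]
      · rw [if_neg h]
    change RR β (Bw R B ++ e) (Bw R (up B 0 (B 0)) ++ e)
    rw [e1]
    exact RR.refl _

end Pool.Agent.MWFE.H20U
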