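import Pool.Agent.MWFE.StmtsB

/-!
# Squad MWFE, rows UPZ, HWZ (MP_23468a_al)
-/

set_option autoImplicit false

namespace Pool.Agent.MWFE.H20U

open Pool.Agent.Helper14_MV Pool.Agent.Helper2_MV Pool.Agent.MVD Pool.Agent.MWFE
open Pool.Agent.MWE (Can XX fxy dxy dx dy up cp L4 pr Xs xl isx Fs nd nr)
open Pool.Agent.MWGR (cb)

theorem mem_bw {R : List ℕ} {B : ℕ → List ℕ} {a : ℕ} :
    a ∈ Bw R B ↔ ∃ r ∈ R, a ∈ B r ∨ a = 3 * r + 2 := by
  unfold Bw
  rw [List.mem_flatMap]
  constructor
  · rintro ⟨r, hr, h⟩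
    refine ⟨r, hr, ?_⟩
    rw [List.mem_append, List.mem_singleton] at h
    exact h
  · rintro ⟨r, hr, h⟩
    refine ⟨r, hr, ?_⟩
    rw [List.mem_append, List.mem_singleton]
    exact h

theorem count_bw_congr {R : List ℕ} {B B' : ℕ → List ℕ} {a : ℕ}
    (h : ∀ r ∈ R, (B r).count a = (B' r).count a) : (Bw R B).count a = (Bw R B').count a := by
  unfold Bw
  rw [List.count_flatMap, List.count_flatMap]
  congr 1
  refine List.map_congr_left (fun r hr => ?_)
  simp only [Function.comp, List.count_append, h r hr]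

theorem count_bw_le {R : List ℕ} {B : ℕ → List ℕ} {a r : ℕ} (hr : r ∈ R) :
    (B r).count a ≤ (Bw R B).count a := by
  obtain ⟨R1, R2, h⟩ := List.append_of_mem hr
  unfold Bw
  rw [h, List.flatMap_append, List.flatMap_cons]
  simp only [List.count_append]
  omega

/-- the words with the same letters -/
structure Sim (m : ℕ) (R : List ℕ) (B B' : ℕ → List ℕ) (e e' : List ℕ) : Prop where
  sf : ∀ r, SFr (B' r)
  b : ∀ r, ∀ a, a ≠ 3 * m + 1 → (B' r).count a = (B r).count a
  e : e'.Perm e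
  z : ∀ r, r ≠ 0 → (B' r).count (3 * m + 1) = (B r).count (3 * m + 1)
  z0 : (B' 0).count (3 * m + 1) = (B 0).count (3 * m + 1) ∨ 2 ≤ (B' 0).count (3 * m + 1)

theorem sim_bz {m : ℕ} {R c : List ℕ} {B B' : ℕ → List ℕ} {e e' : List ℕ} (h0 : 0 ∈ R)
    (hR : R.Nodup) (h : Sim m R B B' e e') (hb : Bz m R c B e) : Bz m R c B' e' := by
  have mem1 : ∀ r a, a ≠ 3 * m + 1 → (a ∈ B' r ↔ a ∈ B r) := fun r a ha => by
    rw [← List.count_pos_iff, ← List.count_pos_iff, h.b r a ha]
  have memz : ∀ r, r ≠ 0 → (3 * m + 1 ∈ B' r ↔ 3 * m + 1 ∈ B r) := fun r hr => by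
    rw [← List.count_pos_iff, ← List.count_pos_iff, h.z r hr]
  have ctw : ∀ a, a ≠ 3 * m + 1 → (Bw R B' ++ e').count a = (Bw R B ++ e).count a := by
    intro a ha
    rw [List.count_append, List.count_append, h.e.count_eq a,
      count_bw_congr (fun r _ => h.b r a ha)]
  have ctz : (B' 0).count (3 * m + 1) = (B 0).count (3 * m + 1) →
      (Bw R B' ++ e').count (3 * m + 1) = (Bw R B ++ e).count (3 * m + 1) := by
    intro h1
    rw [List.count_append, List.count_append, h.e.count_eq (3 * m + 1)]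
    congr 1
    refine count_bw_congr (fun r _ => ?_)
    by_cases hr : r = 0
    · rw [hr]; exact h1
    · exact h.z r hr
  have memw : ∀ a, a ∈ Bw R B' ++ e' → a ≠ 3 * m + 1 → a ∈ Bw R B ++ e := by
    intro a ha h1
    rw [← List.count_pos_iff] at ha ⊢
    rw [← ctw a h1]
    exact ha
  refine ⟨h.sf, ?_, ?_, ?_, ?_, ?_, ?_, ?_, ?_, ?_, ?_, ?_, ?_, ?_, ?_, ?_, ?_⟩
  · intro a ha
    exact hb.se a (h.e.mem_iff.1 ha)
  · rw [h.b 0 0 (by omega)]; exact hb.x0
  · rw [h.b 1 0 (by omega)]; exact hb.x1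
  · intro r hr h1 h2 h3
    exact hb.xo r hr h1 h2 ((mem1 r 0 (by omega)).1 h3)
  · intro h1
    exact hb.xe (h.e.mem_iff.1 h1)
  · rw [h.b 0 3 (by omega)]; exact hb.y0
  · rw [h.b 1 3 (by omega)]; exact hb.y1
  · intro r hr h1 h2 h3
    exact hb.yo r hr h1 h2 ((mem1 r 3 (by omega)).1 h3)
  · intro h1
    exact hb.ye (h.e.mem_iff.1 h1)
  · intro d hd r hr
    rw [h.b r (3 * d + 1) (by omega)]
    exact hb.li d hd r hr
  · intro d hd h1
    exact hb.le d hd (h.e.mem_iff.1 h1)
  · intro r hr h1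
    have hr0 : r ≠ 0 := by
      rintro rfl
      obtain ⟨A, D, C, h2⟩ := h1
      rw [h2] at hR
      exact (List.nodup_cons.1 (List.nodup_append.1 hR).2.1).1
        (List.mem_append_right _ List.mem_cons_self)
    rw [memz r hr0]
    exact hb.z1 r hr h1
  · intro h1
    exact hb.ze (h.e.mem_iff.1 h1)
  · intro a ha h1
    by_cases h2 : a = 3 * m + 1
    · exact Or.inr (Or.inr (Or.inl h2))
    · exact hb.ct a (memw a ha h2) h1
  · intro a ha h1
    by_cases h2 : a = 3 * m + 1
    · subst h2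
      rcases h.z0 with h3 | h3
      · rw [ctz h3]
        refine hb.mu _ ?_ h1
        rw [← List.count_pos_iff] at ha ⊢
        rw [← ctz h3]
        exact ha
      · rw [List.count_append]
        have h4 := count_bw_le (B := B') (a := 3 * m + 1) h0
        omega
    · rw [ctw a h2]
      exact hb.mu a (memw a ha h2) h1
  · intro a ha h1
    by_cases h2 : a = 3 * m + 1
    · subst h2
      rcases h.z0 with h3 | h3
      · have h4 := hb.hv (3 * m + 1) (by
          rw [← List.count_pos_iff] at ha ⊢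
          rw [← ctz h3]
          exact ha) h1
        rw [ctz h3, h.e.count_eq]
        rcases h4 with h4 | h4 | ⟨r, hr, h4⟩
        · exact Or.inl h4
        · exact Or.inr (Or.inl h4)
        · refine Or.inr (Or.inr ⟨r, hr, ?_⟩)
          by_cases hr0 : r = 0
          · rw [hr0, h3, ← hr0]; exact h4
          · rw [h.z r hr0]; exact h4
      · exact Or.inr (Or.inr ⟨0, h0, h3⟩)
    · have h4 := hb.hv a (memw a ha h2) h1
      rw [ctw a h2, h.e.count_eq]
      rcases h4 with h4 | h4 | ⟨r, hr, h4⟩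
      · exact Or.inl h4
      · exact Or.inr (Or.inl h4)
      · exact Or.inr (Or.inr ⟨r, hr, by rw [h.b r a h2]; exact h4⟩)

theorem sim_bfz {m : ℕ} {R c : List ℕ} {B B' : ℕ → List ℕ} {e e' : List ℕ} (h0 : 0 ∈ R)
    (hR : R.Nodup) (h : Sim m R B B' e e') (hb : Bfz m R c B e) : Bfz m R c B' e' := by
  refine ⟨sim_bz h0 hR h hb.toBz, fun a ha => ?_⟩
  have h1 := hb.fu a ha
  rw [← List.count_pos_iff] at h1 ⊢
  by_cases h2 : a = 3 * m + 1
  · subst h2
    rw [h.z 1 (by omega)]
    exact h1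
  · rw [h.b 1 a h2]
    exact h1

theorem upz : UpzStmt := by
  intro m R c B e hR
  have hnd : R.Nodup := hR.nodup_iff.2 List.nodup_range
  have h0 : 0 ∈ R := by rw [hR.mem_iff, List.mem_range]; omega
  refine ⟨?_, ?_, ?_⟩
  · intro r D hD
    have hs : (∀ r, SFr (B r)) → Sim m R B (up B r D) e e := by
      intro hsf
      have hc : ∀ s a, (up B r D s).count a = (B s).count a := by
        intro s a
        unfold MWE.up
        by_cases h1 : s = r
        · rw [if_pos h1, h1, hD.count_eq]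
        · rw [if_neg h1]
      refine ⟨?_, fun s a _ => hc s a, List.Perm.refl _, fun s _ => hc s _, Or.inl (hc 0 _)⟩
      intro s a ha
      rw [← List.count_pos_iff, hc, List.count_pos_iff] at ha
      exact hsf s a ha
    exact ⟨fun hb => sim_bz h0 hnd (hs hb.sf) hb, fun hb => sim_bfz h0 hnd (hs hb.sf) hb⟩
  · intro e' he
    have hs : (∀ r, SFr (B r)) → Sim m R B B e e' := fun hsf =>
      ⟨hsf, fun _ _ _ => rfl, he, fun _ _ => rfl, Or.inl rfl⟩
    exact ⟨fun hb => sim_bz h0 hnd (hs hb.sf) hb, fun hb => sim_bfz h0 hnd (hs hb.sf) hb⟩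
  · intro D hD hp h2
    have hs : (∀ r, SFr (B r)) → Sim m R B (up B 0 D) e e := by
      intro hsf
      have hb : ∀ s a, a ≠ 3 * m + 1 → (up B 0 D s).count a = (B s).count a := by
        intro s a ha
        unfold MWE.up
        by_cases h1 : s = 0
        · rw [if_pos h1, h1]
          have h3 := hp.count_eq a
          unfold dz at h3
          rw [List.count_filter (by simpa using ha), List.count_filter (by simpa using ha)] at h3
          exact h3
        · rw [if_neg h1]
      refine ⟨?_, hb, List.Perm.refl _, fun s hs => ?_, Or.inr ?_⟩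
      · intro s
        unfold MWE.up
        by_cases h1 : s = 0
        · rw [if_pos h1]; exact hD
        · rw [if_neg h1]; exact hsf s
      · unfold MWE.up
        rw [if_neg hs]
      · unfold MWE.up
        rw [if_pos rfl]
        exact h2
    exact ⟨fun hb => sim_bz h0 hnd (hs hb.sf) hb, fun hb => sim_bfz h0 hnd (hs hb.sf) hb⟩

theorem hwz : HwzStmt := by
  intro m R c B e hb a ha hz
  rcases hb.hv a ha hz with h | h | ⟨r, hr, h⟩
  · exact Or.inl h
  · refine Or.inr ⟨Bw R B, e, [], by rw [List.append_nil], ?_, h⟩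
    intro d hd
    exact hb.mu d (List.mem_append_right _ hd) (hb.se d hd)
  · obtain ⟨R1, R2, h1⟩ := List.append_of_mem hr
    have e1 : Bw R B = Bw R1 B ++ (B r ++ ([3 * r + 2] ++ Bw R2 B)) := by
      unfold Bw
      rw [h1, List.flatMap_append, List.flatMap_cons]
      simp only [List.append_assoc]
    refine Or.inr ⟨Bw R1 B, B r, [3 * r + 2] ++ Bw R2 B ++ e, ?_, ?_, h⟩
    · rw [e1]
      simp only [List.append_assoc]
    · intro d hd
      exact hb.mu d (List.mem_append_left _ (mem_bw.2 ⟨r, hr, Or.inl hd⟩)) (hb.sf r d hd)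

end Pool.Agent.MWFE.H20U
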